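import Pool.Agent.Q266.RP.Stm3

set_option autoImplicit false

/-! JOB DIV of project RP (helper266): `d ^ 2` divides the order. -/

namespace Pool.Agent.Q65.RPB

open Pool.Agent.Q266.RP Module

theorem div (hOdd : S_ODDPAIR) (hStep : S_STEPB) (hSchur : S_SCHUR) (hDesc : S_DESC) : S_DIV := by
  have key : ∀ n : ℕ, ∀ (p : ℕ) [Fact p.Prime] (P V : Type) [Group P] [Finite P]
      [AddCommGroup V] [Module ℂ V] [FiniteDimensional ℂ V] (ρ : Representation ℂ P V), p ≠ 2 →
      Nat.card P = n → IsPGroup p P → Irr ρ →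
      (finrank ℂ V) ^ 2 ∣ Nat.card P ∧ (Nontrivial P → p * (finrank ℂ V) ^ 2 ∣ Nat.card P) := by
    intro n
    induction n using Nat.strong_induction_on with
    | _ n ih =>
    intro p hp P V _ _ _ _ _ ρ hp2 hn hP hIrr
    by_cases hker : ∀ g, ρ g = 1 → g = 1
    · by_cases hc : ∀ a b : P, a * b = b * a
      · have hd := hSchur.2.2 P V ρ hIrr hc
        rw [hd]
        refine ⟨by simp, fun hnt => ?_⟩
        rcases hP.card_eq_or_dvd with h1 | h1
        · exact absurd h1 (Finite.one_lt_card_iff_nontrivial.2 hnt).ne'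
        · simpa using h1
      · obtain ⟨e, z, hez⟩ := hOdd p hp2 P hP (hSchur.2.1 p P V ρ hIrr hker) hc
        have hzc : z ∈ Subgroup.center P := hez.2.2.1
        have hzo : orderOf z = p := hez.2.2.2.1
        obtain ⟨ω, hω⟩ := hSchur.1 P V ρ hIrr z hzc
        have hω1 : ω ≠ 1 := by
          intro h
          have h1 : z = 1 := hker z (by
            ext v
            rw [hω, h, one_smul]
            rfl)
          rw [h1, orderOf_one] at hzo
          exact hp.out.one_lt.ne hzo
        have htr1 : LinearMap.trace ℂ V (ρ 1) ≠ 0 := by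
          haveI := hIrr.1
          rw [map_one, LinearMap.trace_one]
          have := finrank_pos (R := ℂ) (M := V)
          exact_mod_cast this.ne'
        obtain ⟨hxC, m, hu, hN, W, σ, hσ, hfr, hact, -, hcd⟩ :=
          hStep p P V ρ hIrr e z hez ω hω hω1 1 htr1
        have hQP : IsPGroup p (Subgroup.centralizer ({e} : Set P) ⧸
            Subgroup.zpowers (⟨e * z ^ m, hu⟩ : Subgroup.centralizer ({e} : Set P))) :=
          (hP.to_subgroup _).to_quotient _
        have hpos : 0 < Nat.card (Subgroup.centralizer ({e} : Set P) ⧸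
            Subgroup.zpowers (⟨e * z ^ m, hu⟩ : Subgroup.centralizer ({e} : Set P))) := Nat.card_pos
        have hp1 : 1 < p ^ 2 := Nat.one_lt_pow (by norm_num) hp.out.one_lt
        have hlt : Nat.card (Subgroup.centralizer ({e} : Set P) ⧸
            Subgroup.zpowers (⟨e * z ^ m, hu⟩ : Subgroup.centralizer ({e} : Set P))) < n := by
          rw [← hn, hcd]
          nlinarith
        have hzC : z ∈ Subgroup.centralizer ({e} : Set P) :=
          Subgroup.mem_centralizer_singleton_iff.2 ((Subgroup.mem_center_iff.1 hzc e).symm)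
        have hnt : Nontrivial (Subgroup.centralizer ({e} : Set P) ⧸
            Subgroup.zpowers (⟨e * z ^ m, hu⟩ : Subgroup.centralizer ({e} : Set P))) := by
          refine ⟨QuotientGroup.mk ⟨z, hzC⟩, 1, fun h => ?_⟩
          haveI := hσ.1
          obtain ⟨w, hw⟩ := exists_ne (0 : W)
          have h1 := hact ⟨z, hzC⟩ w
          rw [h, map_one, hω] at h1
          have h2 : (1 - ω) • (w : V) = 0 := by
            rw [sub_smul, one_smul, ← h1]
            simp
          rcases smul_eq_zero.1 h2 with h3 | h3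
          · exact hω1 (sub_eq_zero.1 h3).symm
          · exact hw (Subtype.ext h3)
        have hih := (ih _ hlt p (Subgroup.centralizer ({e} : Set P) ⧸
            Subgroup.zpowers (⟨e * z ^ m, hu⟩ : Subgroup.centralizer ({e} : Set P))) W σ hp2 rfl
            hQP hσ).2 hnt
        have hmain : p * (finrank ℂ V) ^ 2 ∣ Nat.card P := by
          rw [hfr, hcd]
          have h3 : p * (p * finrank ℂ W) ^ 2 = p ^ 2 * (p * finrank ℂ W ^ 2) := by ring
          rw [h3]
          exact Nat.mul_dvd_mul_left _ hih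
        exact ⟨(Dvd.intro_left p rfl).trans hmain, fun _ => hmain⟩
    · push Not at hker
      obtain ⟨g, hg1, hg2⟩ := hker
      obtain ⟨σ, hσ, hσ2⟩ := hDesc.2 P V ρ (MonoidHom.ker ρ) hIrr (fun n hn => hn)
      have hQP : IsPGroup p (P ⧸ MonoidHom.ker ρ) := hP.to_quotient _
      have hcd : Nat.card P = Nat.card (P ⧸ MonoidHom.ker ρ) * Nat.card (MonoidHom.ker ρ) :=
        Subgroup.card_eq_card_quotient_mul_card_subgroup _
      have hpos : 0 < Nat.card (P ⧸ MonoidHom.ker ρ) := Nat.card_pos
      have hk : 1 < Nat.card (MonoidHom.ker ρ) := by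
        rw [Finite.one_lt_card_iff_nontrivial]
        exact ⟨⟨⟨g, hg1⟩, 1, fun h => hg2 (congrArg Subtype.val h)⟩⟩
      have hlt : Nat.card (P ⧸ MonoidHom.ker ρ) < n := by
        rw [← hn, hcd]
        nlinarith
      have hpk : p ∣ Nat.card (MonoidHom.ker ρ) := by
        rcases (hP.to_subgroup (MonoidHom.ker ρ)).card_eq_or_dvd with h1 | h1
        · exact absurd h1 hk.ne'
        · exact h1
      have hih := (ih _ hlt p (P ⧸ MonoidHom.ker ρ) V σ hp2 rfl hQP hσ).1
      have hmain : p * (finrank ℂ V) ^ 2 ∣ Nat.card P := by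
        rw [hcd, mul_comm p]
        exact Nat.mul_dvd_mul hih hpk
      exact ⟨(Dvd.intro_left p rfl).trans hmain, fun _ => hmain⟩
  intro p hp hp2 P V _ _ _ _ _ ρ hP hIrr
  exact key _ p P V ρ hp2 rfl hP hIrr

end Pool.Agent.Q65.RPB
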